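import Pool.Agent.Work.MP_dcf6a6_c1_helper53.Base

open Polynomial

namespace Pool.C1.helper53

noncomputable section

/-- extension of a function along an injection -/
def ext3 {B : Type} (e : Fin 3 → B) (τ : Fin 3 → ℂ[X]) (f : B → ℂ[X]) (b : B) : ℂ[X] :=
  open Classical in if h : ∃ i, e i = b then τ h.choose else f b

theorem ext3_apply {B : Type} {e : Fin 3 → B} (he : Function.Injective e) (τ : Fin 3 → ℂ[X])
    (f : B → ℂ[X]) (i : Fin 3) : ext3 e τ f (e i) = τ i := by
  have h : ∃ i', e i' = e i := ⟨i, rfl⟩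
  unfold ext3
  rw [dif_pos h]
  exact congrArg τ (he h.choose_spec)

theorem ext3_of_not {B : Type} {e : Fin 3 → B} (τ : Fin 3 → ℂ[X])
    (f : B → ℂ[X]) {b : B} (hb : b ∉ Set.range e) : ext3 e τ f b = f b := by
  unfold ext3
  rw [dif_neg]
  rintro ⟨i, hi⟩
  exact hb ⟨i, hi⟩

section

variable {J B : Type} [Fintype J] [Fintype B] [DecidableEq J] [DecidableEq B]

/-- the function on `J` which is `g` on the section `s` and `x` elsewhere -/
def onSec {α : Type} (D : BData J B) (s : B → J) (x : α) (g : B → α) (j : J) : α :=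
  if j = s (D.bl j) then g (D.bl j) else x

theorem onSec_apply {α : Type} {D : BData J B} {s : B → J} (hs : ∀ b, D.bl (s b) = b) (x : α)
    (g : B → α) (b : B) : onSec D s x g (s b) = g b := by
  unfold onSec
  rw [hs, if_pos rfl]

theorem onSec_of_not {α : Type} {D : BData J B} {s : B → J} {x : α} {g : B → α} {b : B} {j : J}
    (hj : D.bl j = b) (h : j ≠ s b) : onSec D s x g j = x := by
  unfold onSec
  rw [hj, if_neg h]

theorem stmt_BASIC (hBAS3 : Stmt_BAS3) (hCOORD : Stmt_COORD) (hPICK : Stmt_PICK) :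
    Stmt_BASIC := by
  intro J B _ _ _ _ D s hs hlt
  classical
  obtain ⟨e, he, he1, hlt3⟩ := hPICK (fun b => D.l (s b)) D.three (fun b => D.l_pos _) hlt
  let D3 : BData (Fin 3) (Fin 3) :=
    { bl := fun i => i
      l := fun i => D.l (s (e i))
      al := fun i => D.al (e i)
      be := fun i => D.be (e i)
      bl_surj := fun i => ⟨i, rfl⟩
      l_pos := fun i => D.l_pos _
      indep := fun i i' h => D.indep (e i) (e i') (he.ne h)
      three := by simp }
  have hfil : ∀ i : Fin 3, (Finset.univ.filter fun j => D3.bl j = i) = {i} := by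
    intro i
    ext j
    simp [D3]
  have huu : ∀ (τ : Fin 3 → ℂ[X]) i, D3.uu τ i = τ i ^ D.l (s (e i)) := by
    intro τ i
    unfold BData.uu
    rw [hfil, Finset.prod_singleton]
  have hdu : ∀ (τ σ : Fin 3 → ℂ[X]) i, D3.du τ σ i =
      C (D.l (s (e i)) : ℂ) * τ i ^ (D.l (s (e i)) - 1) * σ i := by
    intro τ σ i
    unfold BData.du
    rw [hfil, Finset.sum_singleton, Finset.erase_singleton, Finset.prod_empty, mul_one]
  obtain ⟨d, c, τ₀, u₀, v₀, hd, hlc, hsol₀, hreg₀⟩ := hBAS3 D3 (fun _ => rfl) hlt3
  obtain ⟨S, hS⟩ := hCOORD D3 c d τ₀ u₀ v₀ hd hsol₀ hreg₀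
  obtain ⟨q, hq⟩ := Infinite.exists_notMem_finset S
  obtain ⟨τ, u, v, hsol, hreg, -, hinf⟩ :=
    hS q hq (Finset.univ.image fun b => -(D.be b) / D.al b)
  have hu := u_deg hsol
  have hv := v_deg hsol
  have hcop := no_common hsol
  have htop : ∀ b, D.al b * u.coeff d + D.be b * v.coeff d ≠ 0 := by
    intro b h0
    by_cases hal : D.al b = 0
    · rw [hal, zero_mul, zero_add] at h0
      rcases mul_eq_zero.1 h0 with h1 | h1
      · exact col_ne D b ⟨hal, h1⟩
      · exact hinf.1 h1
    · apply hinf.2 (-(D.be b) / D.al b) (Finset.mem_image.2 ⟨b, Finset.mem_univ _, rfl⟩)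
      field_simp
      linear_combination h0
  have hcl : ∀ i, c i = d / D.l (s (e i)) := by
    intro i
    have h1 : D.l (s (e i)) * c i = d := hlc i
    rw [← h1, Nat.mul_div_cancel_left _ (D.l_pos _)]
  have hdvd : ∀ b, D.l (s b) ∣ d := by
    intro b
    by_cases hb : b ∈ Set.range e
    · obtain ⟨i, rfl⟩ := hb
      exact ⟨c i, (hlc i).symm⟩
    · have h1 := he1 b hb
      rw [h1]
      exact one_dvd _
  -- the function on the blocks
  obtain ⟨g, hg⟩ : ∃ g, g = ext3 e τ fun b => C (D.al b) * u + C (D.be b) * v := ⟨_, rfl⟩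
  have gpow : ∀ b, g b ^ D.l (s b) = C (D.al b) * u + C (D.be b) * v := by
    intro b
    by_cases hb : b ∈ Set.range e
    · obtain ⟨i, rfl⟩ := hb
      rw [hg, ext3_apply he, ← huu]
      exact hsol.rel i
    · have h1 := he1 b hb
      rw [h1, pow_one, hg, ext3_of_not _ _ hb]
  have hlin : ∀ b, (C (D.al b) * u + C (D.be b) * v).natDegree = d := by
    intro b
    apply le_antisymm
    · exact (natDegree_add_le _ _).trans (max_le (C_mul_deg_le _ hu) (C_mul_deg_le _ hv))
    · apply le_natDegree_of_ne_zero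
      rw [coeff_add, coeff_C_mul, coeff_C_mul]
      exact htop b
  have gne : ∀ b, g b ≠ 0 := by
    intro b h0
    have h1 := hlin b
    rw [← gpow b, h0, zero_pow (D.l_pos _).ne', natDegree_zero] at h1
    omega
  have gdeg : ∀ b, (g b).natDegree = d / D.l (s b) := by
    intro b
    have h1 := hlin b
    rw [← gpow b, natDegree_pow] at h1
    rw [← h1, Nat.mul_div_cancel_left _ (D.l_pos _)]
  have gcop : ∀ b b', b ≠ b' → IsCoprime (g b) (g b') := by
    intro b b' hbb
    rw [isCoprime_iff]
    rintro t ⟨h1, h2⟩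
    have e1 := congrArg (eval t) (gpow b)
    have e2 := congrArg (eval t) (gpow b')
    rw [eval_pow, h1, zero_pow (D.l_pos _).ne', eval_add, eval_mul, eval_mul, eval_C, eval_C] at e1
    rw [eval_pow, h2, zero_pow (D.l_pos _).ne', eval_add, eval_mul, eval_mul, eval_C, eval_C] at e2
    have hdet := det_ne D hbb
    unfold BData.det at hdet
    apply hcop t
    constructor
    · apply (mul_eq_zero.1 _).resolve_left hdet
      linear_combination D.be b * e2 - D.be b' * e1
    · apply (mul_eq_zero.1 _).resolve_left hdet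
      linear_combination D.al b' * e1 - D.al b * e2
  have hsec : ∀ {b : B} {j : J}, D.bl j = b → j ≠ s b →
      onSec D s (1 : ℂ[X]) g j = 1 := fun h1 h2 => onSec_of_not h1 h2
  refine ⟨d, onSec D s 1 g, u, v, hd, hdvd, ⟨?_, ?_, ?_, ?_, ?_⟩, ?_⟩
  · intro j
    change (onSec D s 1 g j).natDegree = if j = s (D.bl j) then d / D.l j else 0
    unfold onSec
    by_cases hj : j = s (D.bl j)
    · rw [if_pos hj, if_pos hj, gdeg, ← hj]
    · rw [if_neg hj, if_neg hj, natDegree_one]
  · intro j
    unfold onSec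
    split_ifs
    · exact gne _
    · exact one_ne_zero
  · intro b
    rw [Finset.sum_eq_single (s b)]
    · rw [hs, if_pos rfl]
      exact Nat.mul_div_cancel' (hdvd b)
    · intro j hj hne
      rw [(Finset.mem_filter.1 hj).2, if_neg hne, mul_zero]
    · intro h
      exact absurd (by simp [hs]) h
  · intro b
    unfold BData.uu
    rw [Finset.prod_eq_single (s b)]
    · rw [onSec_apply hs, gpow]
    · intro j hj hne
      rw [hsec (Finset.mem_filter.1 hj).2 hne, one_pow]
    · intro h
      exact absurd (by simp [hs]) h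
  · intro i j hij
    unfold onSec
    split_ifs with h1 h2
    · apply gcop
      intro h
      apply hij
      rw [h1, h2, h]
    · exact isCoprime_one_right
    · exact isCoprime_one_left
    · exact isCoprime_one_left
  · intro P hP
    obtain ⟨σ, p, q', hσ, hp, hq', hrel⟩ := hreg (fun i => P (e i)) (fun i => hP _)
    obtain ⟨h, hh⟩ : ∃ h, h = ext3 e σ fun b => C (D.al b) * p + C (D.be b) * q' + P b := ⟨_, rfl⟩
    have hrel' : ∀ b, C (D.l (s b) : ℂ) * g b ^ (D.l (s b) - 1) * h b =
        C (D.al b) * p + C (D.be b) * q' + P b := by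
      intro b
      by_cases hb : b ∈ Set.range e
      · obtain ⟨i, rfl⟩ := hb
        rw [hg, hh, ext3_apply he, ext3_apply he, ← hdu]
        exact hrel i
      · have h1 := he1 b hb
        rw [h1, Nat.cast_one, C_1, Nat.sub_self, pow_zero, one_mul, one_mul, hh,
          ext3_of_not _ _ hb]
    have hdeg' : ∀ b, (h b).natDegree ≤ d / D.l (s b) := by
      intro b
      by_cases hb : b ∈ Set.range e
      · obtain ⟨i, rfl⟩ := hb
        rw [hh, ext3_apply he, ← hcl]
        exact hσ i
      · have h1 := he1 b hb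
        rw [h1, Nat.div_one, hh, ext3_of_not _ _ hb]
        refine (natDegree_add_le _ _).trans (max_le ?_ (hP b))
        exact (natDegree_add_le _ _).trans (max_le (C_mul_deg_le _ hp) (C_mul_deg_le _ hq'))
    refine ⟨onSec D s 0 h, p, q', ?_, hp, hq', ?_⟩
    · intro j
      change (onSec D s 0 h j).natDegree ≤ if j = s (D.bl j) then d / D.l j else 0
      unfold onSec
      by_cases hj : j = s (D.bl j)
      · rw [if_pos hj, if_pos hj]
        have := hdeg' (D.bl j)
        rwa [← hj] at this
      · rw [if_neg hj, if_neg hj, natDegree_zero]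
    · intro b
      rw [← hrel' b]
      unfold BData.du
      rw [Finset.sum_eq_single (s b)]
      · rw [onSec_apply hs, onSec_apply hs, Finset.prod_eq_one, mul_one]
        intro i hi
        have h1 := Finset.mem_erase.1 hi
        rw [hsec (Finset.mem_filter.1 h1.2).2 h1.1, one_pow]
      · intro j hj hne
        rw [onSec_of_not (D := D) (s := s) (x := (0 : ℂ[X])) (g := h)
          (Finset.mem_filter.1 hj).2 hne, mul_zero, zero_mul]
      · intro h'
        exact absurd (by simp [hs]) h'

end

end

end Pool.C1.helper53
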