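import Pool.Agent.Work.MP_dcf6a6_c1.Interface

open Polynomial

namespace Pool.C1.helper53

noncomputable section

/-- coprimality over `ℂ` -/
theorem isCoprime_iff (f g : ℂ[X]) : IsCoprime f g ↔ ∀ t, ¬ (f.eval t = 0 ∧ g.eval t = 0) := by
  constructor
  · rintro ⟨a, b, hab⟩ t ⟨h1, h2⟩
    have := congrArg (eval t) hab
    rw [eval_add, eval_mul, eval_mul, h1, h2, mul_zero, mul_zero, add_zero, eval_one] at this
    exact zero_ne_one this
  · intro h
    by_contra hcon
    by_cases hfg : f = 0 ∧ g = 0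
    · exact h 0 (by rw [hfg.1, hfg.2]; simp)
    · have hne : EuclideanDomain.gcd f g ≠ 0 := by
        intro h0
        rw [EuclideanDomain.gcd_eq_zero_iff] at h0
        exact hfg h0
      have hdeg : (EuclideanDomain.gcd f g).degree ≠ 0 := by
        intro h0
        apply hcon
        rw [← EuclideanDomain.gcd_isUnit_iff]
        exact isUnit_iff_degree_eq_zero.2 h0
      obtain ⟨t, ht⟩ := IsAlgClosed.exists_root _ hdeg
      have h1 : f.eval t = 0 := by
        obtain ⟨k, hk⟩ := EuclideanDomain.gcd_dvd_left f g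
        rw [hk, eval_mul, ht.eq_zero, zero_mul]
      have h2 : g.eval t = 0 := by
        obtain ⟨k, hk⟩ := EuclideanDomain.gcd_dvd_right f g
        rw [hk, eval_mul, ht.eq_zero, zero_mul]
      exact h t ⟨h1, h2⟩

section

variable {J B : Type} [Fintype J] [Fintype B] [DecidableEq J] [DecidableEq B] {D : BData J B}
  {c : J → ℕ} {d : ℕ} {τ : J → ℂ[X]} {u v : ℂ[X]}

theorem exists_other (D : BData J B) (b : B) : ∃ b', b' ≠ b := by
  have h : 1 < Fintype.card B := by have := D.three; omega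
  obtain ⟨b', hb'⟩ := Fintype.exists_ne_of_one_lt_card h b
  exact ⟨b', hb'⟩

theorem exists_block (D : BData J B) : ∃ b b' : B, b ≠ b' := by
  have h : 0 < Fintype.card B := by have := D.three; omega
  obtain ⟨b⟩ := Fintype.card_pos_iff.1 h
  obtain ⟨b', hb'⟩ := exists_other D b
  exact ⟨b, b', hb'.symm⟩

theorem col_ne (D : BData J B) (b : B) : ¬ (D.al b = 0 ∧ D.be b = 0) := by
  rintro ⟨h1, h2⟩
  obtain ⟨b', hb'⟩ := exists_other D b
  apply D.indep b b' hb'.symm
  rw [h1, h2, zero_mul, mul_zero]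

theorem det_ne (D : BData J B) {b b' : B} (h : b ≠ b') : D.det b b' ≠ 0 := by
  unfold BData.det
  exact sub_ne_zero.2 (D.indep b b' h)

theorem uu_ne (h : D.IsSol c d τ u v) (b : B) : D.uu τ b ≠ 0 := by
  unfold BData.uu
  exact Finset.prod_ne_zero_iff.2 fun j _ => pow_ne_zero _ (h.ne j)

theorem uu_deg (h : D.IsSol c d τ u v) (b : B) : (D.uu τ b).natDegree = d := by
  unfold BData.uu
  rw [natDegree_prod _ _ fun j _ => pow_ne_zero _ (h.ne j), ← h.bal b]
  refine Finset.sum_congr rfl fun j _ => ?_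
  rw [natDegree_pow, h.deg j]

theorem uu_eval (h : D.IsSol c d τ u v) (b : B) (t : ℂ) :
    (D.uu τ b).eval t = D.al b * u.eval t + D.be b * v.eval t := by
  rw [h.rel b, eval_add, eval_mul, eval_mul, eval_C, eval_C]

theorem uu_eval_zero {b : B} {t : ℂ} : (D.uu τ b).eval t = 0 →
    ∃ j, D.bl j = b ∧ (τ j).eval t = 0 := by
  intro h
  unfold BData.uu at h
  rw [eval_prod] at h
  obtain ⟨j, hj, h0⟩ := Finset.prod_eq_zero_iff.1 h
  rw [eval_pow] at h0
  exact ⟨j, (Finset.mem_filter.1 hj).2, by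
    rcases Nat.eq_zero_or_pos (D.l j) with h1 | h1
    · exact absurd (D.l_pos j) (by omega)
    · exact (pow_eq_zero_iff (by omega)).1 h0⟩

theorem uu_eval_zero_of {j : J} {t : ℂ} (h0 : (τ j).eval t = 0) :
    (D.uu τ (D.bl j)).eval t = 0 := by
  unfold BData.uu
  rw [eval_prod]
  refine Finset.prod_eq_zero (Finset.mem_filter.2 ⟨Finset.mem_univ j, rfl⟩) ?_
  rw [eval_pow, h0, zero_pow]
  have := D.l_pos j
  omega

theorem no_common (h : D.IsSol c d τ u v) (t : ℂ) : ¬ (u.eval t = 0 ∧ v.eval t = 0) := by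
  rintro ⟨h1, h2⟩
  obtain ⟨b, b', hbb⟩ := exists_block D
  have e1 : (D.uu τ b).eval t = 0 := by rw [uu_eval h, h1, h2]; ring
  have e2 : (D.uu τ b').eval t = 0 := by rw [uu_eval h, h1, h2]; ring
  obtain ⟨j, hj, hj0⟩ := uu_eval_zero e1
  obtain ⟨j', hj', hj0'⟩ := uu_eval_zero e2
  have hne : j ≠ j' := by
    rintro rfl
    exact hbb (hj.symm.trans hj')
  exact (isCoprime_iff _ _).1 (h.cop j j' hne) t ⟨hj0, hj0'⟩

theorem coprime_uv (h : D.IsSol c d τ u v) : IsCoprime u v :=
  (isCoprime_iff _ _).2 (no_common h)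

theorem det_u (h : D.IsSol c d τ u v) (b b' : B) :
    C (D.det b b') * u = C (D.be b') * D.uu τ b - C (D.be b) * D.uu τ b' := by
  rw [h.rel b, h.rel b']
  unfold BData.det
  rw [C_sub, C_mul, C_mul]
  ring

theorem det_v (h : D.IsSol c d τ u v) (b b' : B) :
    C (D.det b b') * v = C (D.al b) * D.uu τ b' - C (D.al b') * D.uu τ b := by
  rw [h.rel b, h.rel b']
  unfold BData.det
  rw [C_sub, C_mul, C_mul]
  ring

theorem C_mul_deg_le (a : ℂ) {f : ℂ[X]} {N : ℕ} (h : f.natDegree ≤ N) :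
    (C a * f).natDegree ≤ N := (natDegree_C_mul_le a f).trans h

theorem u_deg (h : D.IsSol c d τ u v) : u.natDegree ≤ d := by
  obtain ⟨b, b', hbb⟩ := exists_block D
  have h1 := det_u h b b'
  have h2 : (C (D.det b b') * u).natDegree = u.natDegree := natDegree_C_mul (det_ne D hbb)
  rw [← h2, h1]
  exact (natDegree_sub_le _ _).trans (max_le (C_mul_deg_le _ (uu_deg h b).le)
    (C_mul_deg_le _ (uu_deg h b').le))

theorem v_deg (h : D.IsSol c d τ u v) : v.natDegree ≤ d := by
  obtain ⟨b, b', hbb⟩ := exists_block D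
  have h1 := det_v h b b'
  have h2 : (C (D.det b b') * v).natDegree = v.natDegree := natDegree_C_mul (det_ne D hbb)
  rw [← h2, h1]
  exact (natDegree_sub_le _ _).trans (max_le (C_mul_deg_le _ (uu_deg h b').le)
    (C_mul_deg_le _ (uu_deg h b).le))

theorem top_ne (h : D.IsSol c d τ u v) (b : B) :
    D.al b * u.coeff d + D.be b * v.coeff d ≠ 0 := by
  have h1 : (D.uu τ b).coeff d = D.al b * u.coeff d + D.be b * v.coeff d := by
    rw [h.rel b, coeff_add, coeff_C_mul, coeff_C_mul]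
  rw [← h1]
  have h2 := uu_deg h b
  rw [← h2]
  exact leadingCoeff_ne_zero.2 (uu_ne h b)

end

end

end Pool.C1.helper53
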