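import Pool.Agent.Work.MP_dcf6a6_c1_helper53.Base

open Polynomial

namespace Pool.C1.helper53

noncomputable section

section

variable {J B : Type} [Fintype J] [Fintype B] [DecidableEq J] [DecidableEq B] {D : BData J B}
  {c : J → ℕ} {d : ℕ} {τ : J → ℂ[X]} {u v : ℂ[X]}

/-- the Wronskian -/
def wr (u v : ℂ[X]) : ℂ[X] := u * derivative v - v * derivative u

theorem natDegree_of_dvd_derivative {f : ℂ[X]} (h : f ∣ derivative f) : f.natDegree = 0 := by
  by_cases h0 : f.natDegree = 0
  · exact h0
  · by_cases hd : derivative f = 0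
    · exact natDegree_eq_zero_of_derivative_eq_zero hd
    · exfalso
      have h1 := natDegree_le_of_dvd h hd
      have h2 := natDegree_derivative_lt h0
      omega

theorem wr_ne (hd : 0 < d) (h : D.IsSol c d τ u v) : wr u v ≠ 0 := by
  intro h0
  have hco := coprime_uv h
  have h1 : u * derivative v = v * derivative u := sub_eq_zero.1 h0
  have hu : u.natDegree = 0 := by
    apply natDegree_of_dvd_derivative
    exact hco.dvd_of_dvd_mul_left (Dvd.intro _ h1)
  have hv : v.natDegree = 0 := by
    apply natDegree_of_dvd_derivative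
    exact hco.symm.dvd_of_dvd_mul_left (Dvd.intro _ h1.symm)
  obtain ⟨b, -, -⟩ := exists_block D
  have h2 := uu_deg h b
  have h3 : (D.uu τ b).natDegree ≤ 0 := by
    rw [h.rel b]
    exact (natDegree_add_le _ _).trans (max_le (C_mul_deg_le _ hu.le) (C_mul_deg_le _ hv.le))
  omega

theorem exists_avoid {ι : Type} (s : Finset ι) (f : ι → ℂ[X]) (hf : ∀ i ∈ s, f i ≠ 0) :
    ∃ t, ∀ i ∈ s, (f i).eval t ≠ 0 := by
  have hne : ∏ i ∈ s, f i ≠ 0 := Finset.prod_ne_zero_iff.2 hf
  by_contra hcon
  push Not at hcon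
  apply hne
  apply Polynomial.funext
  intro t
  rw [eval_zero, eval_prod]
  obtain ⟨i, hi, h0⟩ := hcon t
  exact Finset.prod_eq_zero hi h0

theorem reflect_eval {f : ℂ[X]} {N : ℕ} (h : f.natDegree ≤ N) {x : ℂ} (hx : x ≠ 0) :
    (f.reflect N).eval x⁻¹ * x ^ N = f.eval x := by
  let _ := invertibleOfNonzero hx
  have := eval₂_reflect_mul_pow (RingHom.id ℂ) x N f h
  rw [invOf_eq_inv] at this
  exact this

theorem comp_coeff_zero (f : ℂ[X]) (r : ℂ) : (f.comp (X + C r)).coeff 0 = f.eval r := by
  rw [coeff_zero_eq_eval_zero, eval_comp, eval_add, eval_X, eval_C, zero_add]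

theorem comp_coeff_one (f : ℂ[X]) (r : ℂ) :
    (f.comp (X + C r)).coeff 1 = (derivative f).eval r := by
  rw [← taylor_apply, taylor_coeff_one]

theorem comp_coeff_top {f : ℂ[X]} {N : ℕ} (h : f.natDegree ≤ N) (r : ℂ) :
    (f.comp (X + C r)).coeff N = f.coeff N := by
  rcases Nat.eq_or_lt_of_le h with h1 | h1
  · have h2 : (f.comp (X + C r)).natDegree = N := by
      rw [natDegree_comp, natDegree_X_add_C, mul_one, h1]
    have h3 : (f.comp (X + C r)).leadingCoeff = f.leadingCoeff := by
      rw [leadingCoeff_comp (by rw [natDegree_X_add_C]; exact one_ne_zero),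
        (monic_X_add_C r).leadingCoeff, one_pow, mul_one]
    rw [← h1]
    rw [leadingCoeff, h2, ← h1] at h3
    exact h3
  · have h2 : (f.comp (X + C r)).natDegree < N := by
      rw [natDegree_comp, natDegree_X_add_C, mul_one]
      exact h1
    rw [coeff_eq_zero_of_natDegree_lt h2, coeff_eq_zero_of_natDegree_lt h1]

theorem comp_deg (f : ℂ[X]) (r : ℂ) : (f.comp (X + C r)).natDegree = f.natDegree := by
  rw [natDegree_comp, natDegree_X_add_C, mul_one]

theorem reflect_deriv {f : ℂ[X]} {N : ℕ} (hN : 0 < N) (hf : f.natDegree ≤ N) {x : ℂ} (hx : x ≠ 0)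
    (h0 : f.eval x = 0) (h1 : (derivative f).eval x ≠ 0) :
    (derivative (f.reflect N)).eval x⁻¹ ≠ 0 := by
  obtain ⟨g, hg⟩ := dvd_iff_isRoot.2 (show IsRoot f x from h0)
  have hg1 : (derivative f).eval x = g.eval x := by
    rw [hg, derivative_mul, derivative_sub, derivative_X, derivative_C, sub_zero, one_mul, eval_add,
      eval_mul, eval_sub, eval_X, eval_C, sub_self, zero_mul, add_zero]
  have hgne : g ≠ 0 := by
    rintro rfl
    rw [hg1, eval_zero] at h1
    exact h1 rfl
  have hgd : g.natDegree ≤ N - 1 := by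
    have : f.natDegree = 1 + g.natDegree := by
      rw [hg, natDegree_mul (X_sub_C_ne_zero x) hgne, natDegree_X_sub_C]
    omega
  have hrf : f.reflect N = (1 - C x * X) * g.reflect (N - 1) := by
    conv_lhs => rw [hg, show N = 1 + (N - 1) by omega]
    rw [reflect_mul _ _ (natDegree_X_sub_C x).le hgd, reflect_sub, reflect_one_X, reflect_C,
      pow_one]
  rw [hrf, derivative_mul, derivative_sub, derivative_one, derivative_C_mul, derivative_X, mul_one,
    zero_sub, eval_add, eval_mul, eval_neg, eval_C, eval_mul, eval_sub, eval_one, eval_mul, eval_C,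
    eval_X, mul_inv_cancel₀ hx, sub_self, zero_mul, add_zero]
  have h2 := reflect_eval hgd hx
  apply mul_ne_zero (neg_ne_zero.2 hx)
  intro h3
  rw [h3, zero_mul] at h2
  rw [hg1, ← h2] at h1
  exact h1 rfl

theorem stmt_COORD (hTR : Stmt_TRANS) (hRV : Stmt_REV) : Stmt_COORD := by
  intro J B _ _ _ _ D c d τ u v hd h hreg
  classical
  set W := wr u v with hW
  have hW0 : W ≠ 0 := wr_ne hd h
  refine ⟨(W.roots.toFinset.image fun t => u.eval t / v.eval t) ∪
    (Finset.univ.image fun b => -(D.be b) / D.al b) ∪ {u.coeff d / v.coeff d}, ?_⟩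
  intro q hq Bad
  rw [Finset.mem_union, Finset.mem_union, not_or, not_or, Finset.mem_singleton] at hq
  obtain ⟨⟨hq1, hq2⟩, hq3⟩ := hq
  set f := u - C q * v with hf
  have hud := u_deg h
  have hvd := v_deg h
  have hfd : f.natDegree ≤ d :=
    (natDegree_sub_le _ _).trans (max_le hud (C_mul_deg_le _ hvd))
  obtain ⟨b₀, -, -⟩ := exists_block D
  have hftop : f.coeff d ≠ 0 := by
    rw [hf, coeff_sub, coeff_C_mul]
    intro h0
    have h1 : u.coeff d = q * v.coeff d := sub_eq_zero.1 h0
    by_cases hv0 : v.coeff d = 0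
    · apply top_ne h b₀
      rw [h1, hv0]
      ring
    · apply hq3
      rw [h1, mul_div_assoc, div_self hv0, mul_one]
  have hfdeg : f.degree ≠ 0 := by
    intro h0
    have h1 : f.natDegree = 0 := natDegree_eq_of_degree_eq_some h0
    apply hftop
    exact coeff_eq_zero_of_natDegree_lt (by omega)
  obtain ⟨t₀, ht₀⟩ := IsAlgClosed.exists_root f hfdeg
  have hut : u.eval t₀ = q * v.eval t₀ := by
    have := ht₀.eq_zero
    rw [hf, eval_sub, eval_mul, eval_C] at this
    exact sub_eq_zero.1 this
  have hvt : v.eval t₀ ≠ 0 := by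
    intro h0
    apply no_common h t₀
    rw [hut, h0]
    exact ⟨mul_zero _, rfl⟩
  have hWt : W.eval t₀ ≠ 0 := by
    intro h0
    apply hq1
    rw [Finset.mem_image]
    refine ⟨t₀, Multiset.mem_toFinset.2 ((mem_roots hW0).2 h0), ?_⟩
    rw [hut, mul_div_assoc, div_self hvt, mul_one]
  have hf't : (derivative f).eval t₀ ≠ 0 := by
    intro h0
    apply hWt
    rw [hf, derivative_sub, derivative_C_mul, eval_sub, eval_mul, eval_C] at h0
    rw [hW, wr, eval_sub, eval_mul, eval_mul, hut]
    linear_combination (-(v.eval t₀)) * h0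
  have hτt : ∀ j, (τ j).eval t₀ ≠ 0 := by
    intro j h0
    have h1 := uu_eval_zero_of (D := D) h0
    rw [uu_eval h, hut] at h1
    have h2 : (D.al (D.bl j) * q + D.be (D.bl j)) * v.eval t₀ = 0 := by linear_combination h1
    rcases mul_eq_zero.1 h2 with h3 | h3
    · by_cases hal : D.al (D.bl j) = 0
      · apply col_ne D (D.bl j)
        rw [hal, zero_mul, zero_add] at h3
        exact ⟨hal, h3⟩
      · apply hq2
        rw [Finset.mem_image]
        refine ⟨D.bl j, Finset.mem_univ _, ?_⟩
        rw [div_eq_iff hal]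
        linear_combination -h3
    · exact hvt h3
  -- the point which goes to infinity
  obtain ⟨β, hβ⟩ : ∃ β, (β ≠ t₀ ∧ v.eval β ≠ 0 ∧ (∀ j, (τ j).eval β ≠ 0) ∧
      ∀ q' ∈ Bad, (u - C q' * v).eval β ≠ 0) := by
    have hv0 : v ≠ 0 := by rintro rfl; exact hvt eval_zero
    let F : (Option (Option J) ⊕ ℂ) → ℂ[X] := fun i => match i with
      | Sum.inl none => X - C t₀
      | Sum.inl (some none) => v
      | Sum.inl (some (some j)) => τ j
      | Sum.inr q' => u - C q' * v
    obtain ⟨β, hβ⟩ := exists_avoid ((Finset.univ : Finset (Option (Option J))).disjSum Bad) F (by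
      rintro (i | q') -
      · rcases i with _ | _ | j
        · exact X_sub_C_ne_zero t₀
        · exact hv0
        · exact h.ne j
      · change u - C q' * v ≠ 0
        intro h0
        apply hW0
        have h1 : u = C q' * v := sub_eq_zero.1 h0
        rw [hW, wr, h1, derivative_C_mul]
        ring)
    refine ⟨β, ?_, ?_, ?_, ?_⟩
    · have := hβ (Sum.inl none) (by simp)
      change (X - C t₀).eval β ≠ 0 at this
      rw [eval_sub, eval_X, eval_C] at this
      exact sub_ne_zero.1 this
    · exact hβ (Sum.inl (some none)) (by simp)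
    · intro j
      exact hβ (Sum.inl (some (some j))) (by simp)
    · intro q' hq'
      exact hβ (Sum.inr q') (by simpa using hq')
  obtain ⟨hβ1, hβ2, hβ3, hβ4⟩ := hβ
  -- translate
  obtain ⟨h1, r1⟩ := hTR D c d τ u v β h
  obtain ⟨h2, r2⟩ := hRV D c d _ _ _ h1 (fun j => by rw [comp_coeff_zero]; exact hβ3 j)
  set x := t₀ - β with hx
  have hx0 : x ≠ 0 := sub_ne_zero.2 (Ne.symm hβ1)
  obtain ⟨h3, r3⟩ := hTR D c d _ _ _ x⁻¹ h2
  refine ⟨_, _, _, h3, r3 (r2 (r1 hreg)), ⟨?_, ?_, ?_, ?_⟩, ?_, ?_⟩
  · -- the values of the `τ_j`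
    intro j
    rw [comp_coeff_zero]
    intro h0
    have h4 := reflect_eval (f := (τ j).comp (X + C β)) (N := c j)
      (by rw [comp_deg, h.deg j]) hx0
    rw [h0, zero_mul, eval_comp, eval_add, eval_X, eval_C, hx, sub_add_cancel] at h4
    exact hτt j h4.symm
  · rw [comp_coeff_zero]
    intro h0
    have h4 := reflect_eval (f := v.comp (X + C β)) (N := d) (by rw [comp_deg]; exact hvd) hx0
    rw [h0, zero_mul, eval_comp, eval_add, eval_X, eval_C, hx, sub_add_cancel] at h4
    exact hvt h4.symm
  · rw [comp_coeff_zero, comp_coeff_zero]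
    have h4 := reflect_eval (f := v.comp (X + C β)) (N := d) (by rw [comp_deg]; exact hvd) hx0
    have h5 := reflect_eval (f := u.comp (X + C β)) (N := d) (by rw [comp_deg]; exact hud) hx0
    rw [eval_comp, eval_add, eval_X, eval_C] at h4 h5
    rw [show x + β = t₀ by rw [hx]; ring] at h4 h5
    have hxd : x ^ d ≠ 0 := pow_ne_zero _ hx0
    apply mul_right_cancel₀ hxd
    rw [h5, mul_assoc, h4, hut]
  · have e1 : (u.comp (X + C β)).reflect d - C q * (v.comp (X + C β)).reflect d
        = (f.comp (X + C β)).reflect d := by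
      rw [hf, sub_comp, mul_comp, C_comp, reflect_sub, reflect_C_mul]
    have e2 : ((u.comp (X + C β)).reflect d).comp (X + C x⁻¹) -
        C q * ((v.comp (X + C β)).reflect d).comp (X + C x⁻¹)
        = ((f.comp (X + C β)).reflect d).comp (X + C x⁻¹) := by
      rw [← e1, sub_comp, mul_comp, C_comp]
    rw [e2, comp_coeff_one]
    apply reflect_deriv hd (by rw [comp_deg]; exact hfd) hx0
    · rw [eval_comp, eval_add, eval_X, eval_C, show x + β = t₀ by rw [hx]; ring]
      exact ht₀
    · rw [derivative_comp, derivative_add, derivative_X, derivative_C, add_zero, one_mul,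
        eval_comp, eval_add, eval_X, eval_C, show x + β = t₀ by rw [hx]; ring]
      exact hf't
  · rw [comp_coeff_top (v_deg h2), coeff_reflect, revAt_le le_rfl, Nat.sub_self, comp_coeff_zero]
    exact hβ2
  · intro q' hq'
    rw [comp_coeff_top (v_deg h2), comp_coeff_top (u_deg h2), coeff_reflect, coeff_reflect,
      revAt_le le_rfl, Nat.sub_self, comp_coeff_zero, comp_coeff_zero]
    have := hβ4 q' hq'
    rw [eval_sub, eval_mul, eval_C] at this
    exact sub_ne_zero.1 this

end

end

end Pool.C1.helper53
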